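import Pool.Agent.Q171.KV.Fun
import Pool.Agent.Q198.MG.Li

/-!
Rational injectivity of the assembly maps in A-theory and in higher algebraic K-theory for the
torsion-free groups `F / [R, R]`.

`KVz ℚ n A` is `ℚ ⊗ KV_{n+1}(A)`, where `KV_m(A)`, `m ≥ 1`, is the K-theory of Karoubi and Villamayor
of the ring `A`: it has the generators `[u]` for the invertible matrices `u` over `A[X₁, …, X_n]`
which are congruent to the identity modulo the ideal of the `n`-fold loops (the polynomials which
vanish if some `X_i` is `0` or `1`), and the relations `[u v] = [u] + [v]`, `[u'] = [u]` for the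
stabilizations `u'` of `u`, and `[h(1)] = 0` for the invertible matrices `h` over
`A[t][X₁, …, X_n]` congruent to the identity modulo this ideal with `h(0) = 1`. There are natural maps
`K_m(A) → KV_m(A)`, which are isomorphisms if `A` is regular. `kvQ S n` is the functor
`G ↦ ℚ ⊗ KV_{n+1}(S[G])`, for an arbitrary ring `S`; `hq j` is `G ↦ H_j(G; ℚ)`, and
`α_{j,i} : H_j(G; ℚ) → ℚ ⊗ KV_{n+1}(S[G])`, `i ∈ I_j`, are any transformations natural in the group
`G`. If for each `j` the maps `α_{j,i}`, `i ∈ I_j`, are linearly independent on the group `ℤ^j`, then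
the sum of all the `α_{j,i}` is injective on `F / [R, R]`, for every free group `F` and every normal
subgroup `R` of `F` (so that `F / R` is an arbitrary group); and conversely.

For `S = ℤ` this applies to the A-theory of classifying spaces: rationally, the assembly map
`π_m(BG₊ ∧ A(pt)) → A_m(BG) → K_m(ℤ[G]) → KV_m(ℤ[G])` is a family of this kind, indexed by bases of
the groups `K_{m-j}(ℤ) ⊗ ℚ`, and it is injective for `G = ℤ^j`. This is the assembly map `α_{1,W}` for
the trivial family and `W = EG`.
-/

namespace Pool.Agent.Results.MP_59dd5b_al.MagnusGroups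

open CategoryTheory Pool.Agent.Y483 Pool.Agent.Y75.MQ Pool.Agent.Q171.KV

theorem result (S : Type) [Ring S] (n : ℕ) (I : ℕ → Type)
    (α : ∀ j : ℕ, I j → (hq j ⟶ kvQ S n)) :
    (∀ j, LinearIndependent ℚ fun i : I j => ((α j i).app (zn j)).hom) ↔
      ∀ (X : Type) (R : Subgroup (FreeGroup X)) [R.Normal],
        kerFam (d := Sigma.fst) (fun p : (Σ j, I j) => α p.1 p.2) (modComm R) = ⊥ :=
  Q198.MG.li_iff α (hasTransfers_of_hasPT (hasPT_kv S n))

end Pool.Agent.Results.MP_59dd5b_al.MagnusGroups
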