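import Pool.Agent.Q182.HnFin

/-!
# Graphs of virtually polycyclic groups with edge groups of finite index

`C` is any class of groups which contains the metabelian groups and has the closure properties
`ClosedA C`: the usual closure properties `ClosedE C` and closure under acylindrical actions on
trees. All of this is known for the class of the groups which satisfy the fibered Farrell–Jones
conjecture in A-theory with finite wreath products (solvable groups: Enkelmann, Lück, Pieper,
Ullmann and Winges; acylindrical actions: Knopf, and Bunke, Kasprowski and Winges for these
coefficients).

The theorem below says that `C` contains the fundamental groups of all graphs of groups with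
virtually polycyclic vertex groups and edge groups of finite index in the vertex groups, that is
the generalized Baumslag–Solitar groups with virtually polycyclic groups in place of `ℤ`. The
graph may be infinite. The theorem also has a version for virtually torsion-free nilpotent groups,
possibly of infinite rank. The only case known so far is that of abelian vertex groups (Gandini,
Meinert and Rüping), whose method uses that homomorphisms to abelian groups detect the vertex
groups. For example all HNN extensions of lattices in a simply connected solvable Lie group by
isomorphisms of subgroups of finite index are covered.

Outline of the proof. All vertex stabilizers are commensurable with one of them, say `H`. Let `j`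
be maximal so that the `j`-th derived groups of all subgroups of finite index of `H` are infinite.
The elements of `G` which centralize a subgroup of finite index of one of these derived groups form
a normal subgroup `K₁`. Let `K` be the normal subgroup of all elements of `G` which centralize a
subgroup of finite index of `K₁ ∩ H`. Then `K ∩ H` is an infinite virtually abelian group, and its
elements are centralized by subgroups of finite index of `K₁ ∩ H`. Hence the elliptic elements of
`K` have logarithms in a rational vector space, which extend to a homomorphism on the subgroup `E`
which they generate, so `[E, E]` meets the vertex stabilizers in finite groups. The preimages of the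
cyclic subgroups of `G ⧸ E` therefore map to metabelian groups with finite kernels on the
stabilizers and are in `C` by our result on trees with balanced virtually cyclic edge stabilizers.
The quotient `G ⧸ E` acts on a tree with stabilizers commensurable with the image of `H`, a proper
quotient, and we use Noetherian induction. For torsion-free nilpotent groups we use the center
instead.
-/

set_option autoImplicit false

namespace Pool.Agent.Results.MP_59dd5b_al.PolycyclicTrees

open Q182.Cyl (ClosedA Est)

/-- Let `C` be a class of groups with the closure properties `ClosedA C` which contains all
metabelian groups. Let `G` be a group acting without inversions on a tree `T` so that each edge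
stabilizer has finite index in the stabilizers of the ends of the edge. Let `v₀` be a vertex.

1. If the stabilizer of `v₀` is virtually polycyclic (it has a solvable subgroup of finite index,
and all its subgroups are finitely generated) then `G` is in `C`.

2. If the stabilizer of `v₀` has a torsion-free nilpotent subgroup of finite index then `G` is in
`C`. -/
theorem result (C : ∀ (G : Type) [Group G], Prop) (hC : ClosedA C)
    (hmet : ∀ (G : Type) [Group G], derivedSeries G 2 = ⊥ → C G)
    (G V : Type) [Group G] [MulAction G V] (T : SimpleGraph V) (hT : T.IsTree)
    (hadj : ∀ (g : G) (v w : V), T.Adj v w → T.Adj (g • v) (g • w))
    (hinv : ∀ (g : G) (v w : V), T.Adj v w → ¬ (g • v = w ∧ g • w = v))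
    (hidx : ∀ v w : V, T.Adj v w → (Est G v w).relIndex (MulAction.stabilizer G v) ≠ 0) (v₀ : V) :
    ((∀ S ≤ MulAction.stabilizer G v₀, S.FG) →
      (∃ S ≤ MulAction.stabilizer G v₀, S.relIndex (MulAction.stabilizer G v₀) ≠ 0 ∧
        Group.IsSolvable S) → C G) ∧
    ((∃ S ≤ MulAction.stabilizer G v₀, S.relIndex (MulAction.stabilizer G v₀) ≠ 0 ∧
        Group.IsNilpotent S ∧ ∀ a ∈ S, a ≠ 1 → ∀ n : ℕ, 0 < n → a ^ n ≠ 1) → C G) :=
  ⟨fun h1 h2 => Q182.Hn.fin_poly hC hmet ⟨hT, hadj, hinv⟩ hidx v₀ h1 h2,
    fun h => Q182.Hn.fin_nilp hC hmet ⟨hT, hadj, hinv⟩ hidx v₀ h⟩

end Pool.Agent.Results.MP_59dd5b_al.PolycyclicTrees
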