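import Pool.Agent.Q27.VC.Cyl

/-!
# Groups acting on trees: virtual centralizers of the edge stabilizers

`C` is any class of groups which contains the metabelian groups and has the closure properties
`ClosedA C` (the usual closure properties `ClosedE C` and closure under acylindrical actions on
trees, in the fibered version); all of this is known for the class of the groups which satisfy the
fibered Farrell–Jones conjecture in A-theory with finite wreath products.

Let `G` act without inversions on a tree with vertex stabilizers in `C`, so that the stabilizers of
two edges with a common vertex are commensurable or have a finite intersection, and let `ρ₀` be a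
homomorphism from `G` to a group in `C`, with kernel `R` (for example `R = G`). For an infinite edge
stabilizer `E` let `KK E` be its virtual centralizer, the group of all elements of `G` which
centralize a subgroup of finite index of `E`. It is a normal subgroup of the commensurator of `E`,
and the quotient is the group of the virtual automorphisms of `E` which are induced by conjugations
in `G`.

1. `G` is in `C` if for every infinite edge stabilizer `E` at a vertex `v`

   * (`CenV`) `E ∩ KK E ∩ R` is finite, or central in `G_v ∩ KK E ∩ R`, and
   * the commensurator of `E` in `G` has a homomorphism to a group in `C` whose kernel is contained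
     in `KK E` (`ComG`), or (`ComL`) `E ∩ KK E ∩ R` has finite index in `E` and the group of the
     virtual automorphisms of `E` induced by the commensurator of `E` in `G_v` embeds in a group in
     `C`.

2. The condition `CenV` is satisfied if the groups `G_v ∩ R` are power-commutative: if a positive
   power of `a` commutes with `b`, then `a` commutes with `b`. For example all groups with unique
   roots are power-commutative, in particular the bi-orderable groups and the torsion-free nilpotent
   groups.

3. If `C` contains the groups `GL_n(ℚ)`, the second condition is satisfied if `E` has a subgroup of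
   finite index which embeds in some `ℚ^n`.

The edge groups can be arbitrary in 1 and 2, for example lattices in semisimple Lie groups without
compact factors (their virtual automorphisms are realized by linear groups, by Mostow, Prasad and
Margulis) or finitely generated nilpotent groups (whose virtual automorphisms form a linear group
over `ℚ`, by Malcev). The vertex groups are arbitrary overgroups in `C`.

Outline of the proof. By the tree of cylinders it suffices to show that the commensurator `M` of an
infinite edge stabilizer `E` is in `C`; it acts on a subtree all of whose edge stabilizers are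
commensurable with `E`, hence have the same virtual centralizer. The homomorphism of `ComG` together
with `ρ₀` is a homomorphism from `M` whose kernel meets the edge stabilizers in finite or central
subgroups, and the theorems on finite kernels and on central kernels (`Q182.Fk.main`,
`Q182.Rc.main`, the latter is `MP_f7db47_al.RelativeCentralEdges`) apply. In the case of `ComL` let
`N` be generated by the elements of `KK E ∩ R` which fix a vertex. Then `M / N` acts on the quotient
tree with finite edge stabilizers, and the theorem on central kernels applies to the preimages of
the vertex stabilizers and of the cyclic subgroups.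
-/

set_option autoImplicit false

namespace Pool.Agent.Results.MP_59dd5b_al.VirtualCentralizers

open Q182.Cyl (ClosedA Est)
open Q27.VC

/-- **the theorem** -/
theorem result (C : ∀ (G : Type) [Group G], Prop) (hC : ClosedA C)
    (hmet : ∀ (G : Type) [Group G], derivedSeries G 2 = ⊥ → C G)
    (G V D₀ : Type) [Group G] [Group D₀] [MulAction G V] (T : SimpleGraph V) (hT : T.IsTree)
    (hadj : ∀ (g : G) (v w : V), T.Adj v w → T.Adj (g • v) (g • w))
    (hinv : ∀ (g : G) (v w : V), T.Adj v w → ¬ (g • v = w ∧ g • w = v))
    (hst : ∀ v : V, C (MulAction.stabilizer G v))
    (hloc : ∀ v w w' : V, T.Adj v w → T.Adj v w' →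
      Subgroup.Commensurable (Est G v w) (Est G v w') ∨ Finite ↥(Est G v w ⊓ Est G v w'))
    (ρ₀ : G →* D₀) (hD₀ : C D₀) :
    -- 1. virtual centralizers and virtual automorphisms
    ((∀ v w : V, T.Adj v w → Infinite (Est G v w) → CenV G ρ₀.ker v w) →
      (∀ v w : V, T.Adj v w → Infinite (Est G v w) → ComG C G v w ∨ ComL C G ρ₀.ker v w) →
      C G) ∧
    -- 2. power-commutative groups
    ((∀ v : V, PC G ρ₀.ker v) →
      (∀ v w : V, T.Adj v w → Infinite (Est G v w) → ComG C G v w ∨ ComL C G ρ₀.ker v w) →
      C G) ∧
    -- 3. virtually abelian edge stabilizers of finite rank
    ((∀ n : ℕ, C (Matrix.GeneralLinearGroup (Fin n) ℚ)) →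
      (∀ v w : V, T.Adj v w → Infinite (Est G v w) → CenV G ρ₀.ker v w ∨ PC G ρ₀.ker v) →
      (∀ v w : V, T.Adj v w → Infinite (Est G v w) →
        ∃ (n : ℕ) (H : Subgroup G) (f : H →* Multiplicative (Fin n → ℚ)), H ≤ Est G v w ∧
          H.relIndex (Est G v w) ≠ 0 ∧ Function.Injective f) → C G) := by
  have hcf := Q182.Hv.corF_of_local ⟨hT, hadj, hinv⟩ hloc
  refine ⟨fun h1 h2 => main hC hmet ⟨hT, hadj, hinv⟩ hcf hst ρ₀ hD₀ h1 h2,
    fun h1 h2 => main hC hmet ⟨hT, hadj, hinv⟩ hcf hst ρ₀ hD₀ (fun v w _ _ => (h1 v).cen w) h2,
    fun hGL h1 h2 => main hC hmet ⟨hT, hadj, hinv⟩ hcf hst ρ₀ hD₀ ?_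
      (fun v w h h' => Or.inl (comG_of_GL hGL (h2 v w h h')))⟩
  intro v w h h'
  rcases h1 v w h h' with h3 | h3
  · exact h3
  · exact h3.cen w

end Pool.Agent.Results.MP_59dd5b_al.VirtualCentralizers
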