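import Pool.Agent.Q181.MCL.VSol

/-!
# Kernels with enough homomorphisms to virtually solvable groups

`ClosedE C` lists closure properties of the class of the groups which satisfy the A-theoretic
Farrell–Jones conjecture with coefficients and finite wreath products, and this class contains all
solvable groups (Kasprowski, Ullmann, Wegner, Winges). `D = C` is allowed. `UW H` is the unrestricted
wreath product of `H` and `ℤ`, the semidirect product of all functions `ℤ → H` with the shift.

Outline of the proof. Let `g` be in `G`, let `M` be a `g`-invariant subgroup, and `φ : M →* H`
injective on the group generated by `E ∪ g E g⁻¹`, `E ⊆ M` finite. The homomorphism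
`x ↦ (n ↦ φ (g⁻ⁿ x g ^ n))` to the base of `UW H` turns the conjugation by `g` into the shift, so
that the conjugation by `g` on `E` is realized in `UW H`. If `H` is virtually solvable, `S` a
solvable normal subgroup of finite index, then the kernel of `UW H → UW (H ⧸ S)` is solvable, and
`UW (H ⧸ S)` is an extension of a locally finite group by `ℤ`.
-/

set_option autoImplicit false

namespace Pool.Agent.Results.MP_59dd5b_al.VirtuallySolvableTargets

open Q181.MCL (VSol UW)
open Pool.Agent.Y110.FJ (ClosedE)
open Q30.FJ (ClosedOver)

/-- Let `C` be a class of groups with the closure properties `ClosedE C` which contains all solvable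
groups, and let the class `D` be closed under subgroups and satisfy the extension principle over `C`
(`D = C` is possible). Let `N` be a normal subgroup of `G` with `G ⧸ N` in `D`. Suppose that for
every `g` in `G` and every finite subset `E` of `N` there are a subgroup `M` of `G` with `g M g⁻¹ = M`
which contains `E`, and a homomorphism from `M` to a group `H`, injective on the subgroup generated by
`E`, such that `H` is virtually solvable or the unrestricted wreath product of `H` and `ℤ` is in `C`.
Then `G` is in `D`. -/
theorem result (C D : ∀ (G : Type) [Group G], Prop) (hC : ClosedE C) (hD : ClosedOver C D)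
    (hsol : ∀ (G : Type) [Group G], Group.IsSolvable G → C G)
    (G : Type) [Group G] (N : Subgroup G) [N.Normal] (hQ : D (G ⧸ N))
    (h : ∀ (g : G) (E : Set G), E.Finite → E ⊆ N → ∃ M : Subgroup G, E ⊆ M ∧
      (∀ x, x ∈ M ↔ g * x * g⁻¹ ∈ M) ∧ ∃ (H : Type) (_ : Group H) (φ : M →* H),
      (VSol H ∨ C (UW H)) ∧ ∀ x : M, (x : G) ∈ Subgroup.closure E → φ x = 1 → x = 1) : D G :=
  Q181.MCL.loc_over hC hD hsol G N hQ h

end Pool.Agent.Results.MP_59dd5b_al.VirtuallySolvableTargets
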